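import Pool.Agent.N176.OW.Stm2
import Pool.Agent.N176.GP.Block

set_option autoImplicit false

/-!
# Most cells are good (helper755)
-/

namespace Pool.Agent.N755.OW

open Finset Filter Topology
open Pool.Agent.N176.GP (cnt card_primes log_div_le)
open Pool.Agent.N176.OW (kap VT mT S_FM S_GC)

theorem gc (h : S_FM) : S_GC := by
  intro b hb
  obtain ⟨κ0, K0, hκ0, hK0, hfm⟩ := h b hb
  obtain ⟨C3, hC3, hcard⟩ := card_primes
  have hl2 : 0 < Real.log 2 := Real.log_pos (by norm_num)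
  have hbR : (2 : ℝ) ≤ b := by exact_mod_cast hb
  have hb0 : (0 : ℝ) < b := by linarith
  obtain ⟨k, hk⟩ := exists_pow_lt_of_lt_one hκ0 (by norm_num : (1 / 2 : ℝ) < 1)
  refine ⟨k + 7, by omega, K0 * C3 / Real.log 2 + 1, by positivity, fun m0 => ?_⟩
  obtain ⟨P, hP⟩ := hfm m0
  have hlim := tendsto_pow_const_div_const_pow_of_one_lt 4 (by norm_num : (1 : ℝ) < 2)
  have hev : ∀ᶠ n : ℕ in atTop, (n : ℝ) ^ 4 / 2 ^ n < 1 / (4 * C3 * Real.log 2) :=
    hlim.eventually (gt_mem_nhds (by positivity))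
  obtain ⟨P2, hP2⟩ := eventually_atTop.1 hev
  refine ⟨P + m0 + (k + 7) + P2 + 1, fun i hi T hT => ?_⟩
  have hi1 : 1 ≤ i := by omega
  have hiR : (1 : ℝ) ≤ i := by exact_mod_cast hi1
  have hi0 : (0 : ℝ) < i := by linarith
  set z := 2 ^ (i + 1 - (k + 7)) with hz
  have hx2 : 2 ≤ 2 ^ i := by
    calc 2 = 2 ^ 1 := rfl
      _ ≤ 2 ^ i := Nat.pow_le_pow_right (by norm_num) hi1
  have hT' : ∀ p ∈ T, p.Prime ∧ 2 ^ i < p ∧ p ≤ 2 * 2 ^ i := by
    intro p hp
    obtain ⟨h1, h2, h3⟩ := hT p hp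
    exact ⟨h1, h2, by rw [pow_succ] at h3; omega⟩
  have hx0 : (0 : ℝ) < 2 ^ i := by positivity
  have hlogx : Real.log ((2 ^ i : ℕ) : ℝ) = i * Real.log 2 := by
    push_cast
    rw [Real.log_pow]
  have hcT : (T.card : ℝ) ≤ C3 * 2 ^ i / (i * Real.log 2) := by
    have := hcard (2 ^ i) hx2 T hT'
    rw [hlogx] at this
    push_cast at this
    exact this
  have hm0z : m0 ≤ z := by
    have h1 : i + 1 - (k + 7) < 2 ^ (i + 1 - (k + 7)) := Nat.lt_two_pow_self
    omega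
  have hzκ : ∀ q ∈ T, (z : ℝ) ≤ κ0 * q := by
    intro q hq
    have h1 : (2 : ℝ) ^ i ≤ q := by exact_mod_cast (hT q hq).2.1.le
    have h2 : (z : ℝ) ≤ κ0 * 2 ^ i := by
      have h3 : (2 : ℝ) ^ i = 2 ^ (i + 1 - (k + 7)) * 2 ^ (k + 6) := by
        rw [← pow_add]
        congr 1
        omega
      have h4 : (1 : ℝ) ≤ κ0 * 2 ^ (k + 6) := by
        have h5 : (1 / 2 : ℝ) ^ k * 2 ^ k = 1 := by
          rw [← mul_pow]
          norm_num
        have h6 : (2 : ℝ) ^ k ≤ 2 ^ (k + 6) := pow_le_pow_right₀ (by norm_num) (by omega)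
        have h7 : (0 : ℝ) < 2 ^ k := by positivity
        calc (1 : ℝ) = (1 / 2 : ℝ) ^ k * 2 ^ k := h5.symm
          _ ≤ κ0 * 2 ^ (k + 6) := mul_le_mul hk.le h6 h7.le hκ0.le
      have hz' : ((2 ^ (i + 1 - (k + 7)) : ℕ) : ℝ) = (2 : ℝ) ^ (i + 1 - (k + 7)) := by
        rw [Nat.cast_pow, Nat.cast_ofNat]
      rw [h3, hz, hz']
      have h5 : (0 : ℝ) < 2 ^ (i + 1 - (k + 7)) := by positivity
      calc (2 : ℝ) ^ (i + 1 - (k + 7)) = 1 * 2 ^ (i + 1 - (k + 7)) := (one_mul _).symm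
        _ ≤ (κ0 * 2 ^ (k + 6)) * 2 ^ (i + 1 - (k + 7)) := mul_le_mul_of_nonneg_right h4 h5.le
        _ = κ0 * (2 ^ (i + 1 - (k + 7)) * 2 ^ (k + 6)) := by ring
    exact h2.trans (mul_le_mul_of_nonneg_left h1 hκ0.le)
  have hPq : ∀ q ∈ T, P ≤ q := by
    intro q hq
    have h1 : i < 2 ^ i := Nat.lt_two_pow_self
    have h2 := (hT q hq).2.1
    omega
  -- the sum of the excesses
  set Y : ℕ → ℕ → ℝ := fun q m => max 0 (|(cnt b z m q : ℝ) / (b : ℝ) ^ (q - z) -
    Real.exp Real.eulerMascheroniConstant / Real.log b * (Real.log q / q)| - K0 / q) with hY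
  have hY0 : ∀ q m, 0 ≤ Y q m := fun q m => le_max_left _ _
  have hsumK : ∑ q ∈ T, K0 / (q : ℝ) ≤ K0 * C3 / (i * Real.log 2) := by
    have h1 : ∀ q ∈ T, K0 / (q : ℝ) ≤ K0 / 2 ^ i := by
      intro q hq
      have h1 : (2 : ℝ) ^ i ≤ q := by exact_mod_cast (hT q hq).2.1.le
      exact div_le_div_of_nonneg_left hK0.le hx0 h1
    refine (sum_le_sum h1).trans ?_
    rw [sum_const, nsmul_eq_mul]
    calc (T.card : ℝ) * (K0 / 2 ^ i) ≤ (C3 * 2 ^ i / (i * Real.log 2)) * (K0 / 2 ^ i) :=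
          mul_le_mul_of_nonneg_right hcT (by positivity)
      _ = K0 * C3 / (i * Real.log 2) := by
          field_simp
  have hdev : ∀ m, |mT b z T m - kap b * VT T| ≤ ∑ q ∈ T, Y q m + K0 * C3 / (i * Real.log 2) := by
    intro m
    have h1 : mT b z T m - kap b * VT T = ∑ q ∈ T, ((cnt b z m q : ℝ) / (b : ℝ) ^ (q - z) -
        Real.exp Real.eulerMascheroniConstant / Real.log b * (Real.log q / q)) := by
      rw [sum_sub_distrib, ← mul_sum]
      rfl
    rw [h1]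
    refine (abs_sum_le_sum_abs _ _).trans ?_
    have h2 : ∀ q ∈ T, |(cnt b z m q : ℝ) / (b : ℝ) ^ (q - z) -
        Real.exp Real.eulerMascheroniConstant / Real.log b * (Real.log q / q)| ≤ Y q m + K0 / q := by
      intro q _
      have := le_max_right (0 : ℝ) (|(cnt b z m q : ℝ) / (b : ℝ) ^ (q - z) -
        Real.exp Real.eulerMascheroniConstant / Real.log b * (Real.log q / q)| - K0 / q)
      have h3 : |(cnt b z m q : ℝ) / (b : ℝ) ^ (q - z) -
        Real.exp Real.eulerMascheroniConstant / Real.log b * (Real.log q / q)| - K0 / q ≤ Y q m := this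
      linarith
    refine (sum_le_sum h2).trans ?_
    rw [sum_add_distrib]
    linarith
  set W := Ico (b ^ (z - m0)) (b ^ (z + m0)) with hW
  have hbad : ∀ m ∈ W.filter (fun m => (K0 * C3 / Real.log 2 + 1) / i < |mT b z T m - kap b * VT T|),
      1 / (i : ℝ) ≤ ∑ q ∈ T, Y q m := by
    intro m hm
    rw [mem_filter] at hm
    have h1 := hm.2.trans_le (hdev m)
    have h2 : (K0 * C3 / Real.log 2 + 1) / i = K0 * C3 / (i * Real.log 2) + 1 / i := by
      field_simp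
    rw [h2] at h1
    linarith
  have h1 := card_nsmul_le_sum _ _ _ hbad
  rw [nsmul_eq_mul] at h1
  have h2 : ∑ m ∈ W.filter (fun m => (K0 * C3 / Real.log 2 + 1) / i < |mT b z T m - kap b * VT T|),
      ∑ q ∈ T, Y q m ≤ ∑ m ∈ W, ∑ q ∈ T, Y q m :=
    sum_le_sum_of_subset_of_nonneg (filter_subset _ _) (fun m _ _ => sum_nonneg fun q _ => hY0 q m)
  have h3 : ∑ m ∈ W, ∑ q ∈ T, Y q m ≤ (b : ℝ) ^ z * (4 * C3 * (i * Real.log 2) / 2 ^ i) := by
    rw [sum_comm]
    have h4 : ∀ q ∈ T, ∑ m ∈ W, Y q m ≤ (b : ℝ) ^ z * (2 * (i * Real.log 2) / 2 ^ i) ^ 2 := by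
      intro q hq
      refine (hP q (hPq q hq) z hm0z (hzκ q hq)).trans ?_
      apply mul_le_mul_of_nonneg_left _ (by positivity)
      rw [← div_pow]
      have h5 := log_div_le hx2 (hT' q hq).2.1 (hT' q hq).2.2
      rw [hlogx] at h5
      push_cast at h5
      have h6 : 0 ≤ Real.log q / q := by
        have := Real.log_natCast_nonneg q
        positivity
      exact pow_le_pow_left₀ h6 h5 2
    refine (sum_le_sum h4).trans ?_
    rw [sum_const, nsmul_eq_mul]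
    calc (T.card : ℝ) * ((b : ℝ) ^ z * (2 * (i * Real.log 2) / 2 ^ i) ^ 2)
        ≤ (C3 * 2 ^ i / (i * Real.log 2)) * ((b : ℝ) ^ z * (2 * (i * Real.log 2) / 2 ^ i) ^ 2) :=
          mul_le_mul_of_nonneg_right hcT (by positivity)
      _ = (b : ℝ) ^ z * (4 * C3 * (i * Real.log 2) / 2 ^ i) := by
          field_simp
          ring
  have h4 := (h1.trans h2).trans h3
  have h5 := hP2 i (by omega)
  set N := ((W.filter (fun m => (K0 * C3 / Real.log 2 + 1) / i < |mT b z T m - kap b * VT T|)).card : ℝ) with hN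
  rw [mul_one_div, div_le_iff₀ hi0] at h4
  refine h4.trans ?_
  rw [div_lt_div_iff₀ (by positivity) (by positivity)] at h5
  rw [div_eq_mul_one_div ((b : ℝ) ^ z) _, mul_assoc]
  apply mul_le_mul_of_nonneg_left _ (by positivity)
  rw [div_mul_eq_mul_div, div_le_div_iff₀ (by positivity) (by positivity)]
  nlinarith

end Pool.Agent.N755.OW
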